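import Pool.Agent.H74.OLP.Targets

set_option autoImplicit false
open scoped Classical
open Finset Pool.Agent.H74.OLP

namespace Pool.Agent.H49.OLP

theorem pf_GEO : T_GEO := by
  intro F T ω S z m hω hM
  have hseg : ∀ a b, a ≤ b → b ≤ m → ∃ p : T.Walk (z a) (z b), p.length = b - a ∧
      (∀ D, ws T D p = fs D z a b) ∧ ∀ x ∈ p.support, ∃ i, a ≤ i ∧ i ≤ b ∧ x = z i :=
    fun a b hab hb => seg T z a b hab (fun i _ hi => hM.wf i (by omega))
  have hone := hM.one
  refine ⟨?_, ?_, ?_⟩
  · intro i hi s hs p
    obtain ⟨q1, hq1, hw1, -⟩ := hseg 0 i (Nat.zero_le _) hi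
    obtain ⟨q2, hq2, hw2, -⟩ := hseg i m hi le_rfl
    have hA : ws T ω (q1.append p) = fs ω z 0 i + ws T ω p := by rw [ws_append, hw1]
    have hB : ws T ω (p.reverse.append q2) = ws T ω p + fs ω z i m := by
      rw [ws_append, ws_reverse T hω, hw2]
    have hsum : (fs ω z 0 i + ws T ω p) + (ws T ω p + fs ω z i m) = 1 := by
      rw [fs_split ω z (Nat.zero_le i) hi] at hone
      linear_combination hone + R2 (ws T ω p)
    rcases Rsum hsum with h | h
    · right
      have := hM.minS _ hM.z0 _ hs (q1.append p) (by rw [hA, h])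
      rw [SimpleGraph.Walk.length_append, hq1] at this
      omega
    · left
      have := hM.minS _ hs _ hM.zm (p.reverse.append q2) (by rw [hB, h])
      rw [SimpleGraph.Walk.length_append, SimpleGraph.Walk.length_reverse, hq2] at this
      omega
  · intro i j hij hj p
    obtain ⟨q1, hq1, hw1, -⟩ := hseg 0 i (Nat.zero_le _) (by omega)
    obtain ⟨q2, hq2, hw2, -⟩ := hseg j m hj le_rfl
    obtain ⟨q3, hq3, hw3, -⟩ := hseg i j hij hj
    have hA : ws T ω (p.append q3.reverse) = ws T ω p + fs ω z i j := by
      rw [ws_append, ws_reverse T hω, hw3]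
    have hB : ws T ω (q1.append (p.append q2)) = fs ω z 0 i + (ws T ω p + fs ω z j m) := by
      rw [ws_append, ws_append, hw1, hw2]
    have hsum : (ws T ω p + fs ω z i j) + (fs ω z 0 i + (ws T ω p + fs ω z j m)) = 1 := by
      rw [fs_split ω z (Nat.zero_le i) (by omega : i ≤ m), fs_split ω z hij hj] at hone
      linear_combination hone + R2 (ws T ω p)
    rcases Rsum hsum with h | h
    · right
      have := hM.minC _ (p.append q3.reverse) (by rw [hA, h])
      rw [SimpleGraph.Walk.length_append, SimpleGraph.Walk.length_reverse, hq3] at this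
      omega
    · left
      have := hM.minS _ hM.z0 _ hM.zm (q1.append (p.append q2)) (by rw [hB, h])
      rw [SimpleGraph.Walk.length_append, SimpleGraph.Walk.length_append, hq1, hq2] at this
      omega
  · intro t hpot
    by_contra hlt
    obtain ⟨q, hq, hw, -⟩ := hseg 0 m (Nat.zero_le _) le_rfl
    have h1 := pot_walk T hpot q (Nb_ends T hM.z0 hM.zm q (by omega))
    rw [hw, hone] at h1
    simp at h1

end Pool.Agent.H49.OLP
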