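import Pool.Agent.H74.OLP.Targets

set_option autoImplicit false
open scoped Classical
open Finset Pool.Agent.H74.OLP

namespace Pool.Agent.H49.OLP

private theorem dv1 {n x y : ℕ} (hx : x < n) (hy : y < n) :
    (n : ℤ) ∣ (x : ℤ) - y - 1 ↔ (x = y + 1 ∨ (x = 0 ∧ y + 1 = n)) := by
  constructor
  · rintro ⟨k, hk⟩
    have hx' : (x : ℤ) < n := by exact_mod_cast hx
    have hy' : (y : ℤ) < n := by exact_mod_cast hy
    have hx0 : (0 : ℤ) ≤ x := Int.natCast_nonneg x
    have hy0 : (0 : ℤ) ≤ y := Int.natCast_nonneg y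
    have hn0 : (0 : ℤ) < n := by omega
    have hk1 : k < 1 := by
      by_contra h
      push Not at h
      have : (n : ℤ) * 1 ≤ n * k := mul_le_mul_of_nonneg_left h hn0.le
      omega
    have hk2 : -2 < k := by
      by_contra h
      push Not at h
      have : (n : ℤ) * k ≤ n * (-2) := mul_le_mul_of_nonneg_left h hn0.le
      omega
    rcases (by omega : k = 0 ∨ k = -1) with rfl | rfl
    · left; omega
    · right; omega
  · rintro (h | ⟨h1, h2⟩)
    · exact ⟨0, by omega⟩
    · exact ⟨-1, by omega⟩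

private theorem dv2 {n : ℕ} {i j x y : ℤ} (hi : (n : ℤ) ∣ i - x) (hj : (n : ℤ) ∣ j - y) :
    (n : ℤ) ∣ i - j - 1 ↔ (n : ℤ) ∣ x - y - 1 := by
  constructor
  · intro h
    have : x - y - 1 = (i - j - 1) - (i - x) + (j - y) := by ring
    rw [this]
    exact dvd_add (dvd_sub h hi) hj
  · intro h
    have : i - j - 1 = (x - y - 1) + (i - x) - (j - y) := by ring
    rw [this]
    exact dvd_sub (dvd_add h hi) hj

theorem pf_MKC : T_MKC := by
  intro F T n u hn hinj hadj
  have hn0 : (0 : ℤ) < n := by omega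
  set r : ℤ → ℕ := fun i => (i % (n : ℤ)).toNat with hr
  have hrc : ∀ i, (r i : ℤ) = i % n := fun i => Int.toNat_of_nonneg (Int.emod_nonneg _ hn0.ne')
  have hrlt : ∀ i, r i < n := fun i => by
    have h1 := Int.emod_lt_of_pos i hn0
    rw [← hrc] at h1
    exact_mod_cast h1
  have hrd : ∀ i, (n : ℤ) ∣ i - r i := fun i => by
    rw [hrc]
    exact Int.dvd_self_sub_emod
  have hreq : ∀ i j, r i = r j ↔ (n : ℤ) ∣ i - j := by
    intro i j
    constructor
    · intro h
      have h1 := hrd i
      have h2 := hrd j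
      rw [← h] at h2
      have : i - j = (i - r i) - (j - r i) := by ring
      rw [this]
      exact dvd_sub h1 h2
    · intro h
      have h1 : i % (n : ℤ) = j % n :=
        (Int.emod_eq_emod_iff_emod_sub_eq_zero).2 (Int.emod_eq_zero_of_dvd h)
      change (i % (n : ℤ)).toNat = (j % (n : ℤ)).toNat
      rw [h1]
  have hrn : ∀ i : ℕ, i < n → r i = i := by
    intro i hi
    change ((i : ℤ) % (n : ℤ)).toNat = i
    rw [Int.emod_eq_of_lt (Int.natCast_nonneg i) (by exact_mod_cast hi)]
    exact Int.toNat_natCast i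
  refine ⟨fun i => u (r i), ⟨hn, ?_, ?_⟩, ?_, ?_, ?_⟩
  · intro i j
    rw [← hreq]
    exact ⟨fun h => hinj _ (hrlt i) _ (hrlt j) h, fun h => by rw [h]⟩
  · intro i j
    rw [hadj _ (hrlt i) _ (hrlt j), dv2 (hrd i) (hrd j), dv2 (hrd j) (hrd i),
      dv1 (hrlt i) (hrlt j), dv1 (hrlt j) (hrlt i)]
    tauto
  · intro i hi
    change u (r i) = u i
    rw [hrn i hi]
  · intro i
    exact ⟨r i, hrlt i, rfl⟩
  · intro D
    obtain ⟨k, rfl⟩ : ∃ k, n = k + 1 := ⟨n - 1, by omega⟩
    unfold cs fs
    rw [Finset.sum_range_succ, Nat.add_sub_cancel, Finset.range_eq_Ico]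
    congr 1
    · refine Finset.sum_congr rfl fun i hi => ?_
      rw [Finset.mem_Ico] at hi
      change D (u (r i)) (u (r ((i : ℤ) + 1))) = _
      rw [hrn i (by omega)]
      have : r ((i : ℤ) + 1) = i + 1 := by
        have := hrn (i + 1) (by omega)
        push_cast at this
        exact this
      rw [this]
    · change D (u (r k)) (u (r ((k : ℤ) + 1))) = _
      rw [hrn k (by omega)]
      have : r ((k : ℤ) + 1) = 0 := by
        have h1 : r ((k : ℤ) + 1) = r 0 := by
          rw [hreq]
          exact ⟨1, by push_cast; ring⟩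
        rw [h1]
        have := hrn 0 (by omega)
        push_cast at this
        exact this
      rw [this]

end Pool.Agent.H49.OLP
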