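import Pool.Agent.H49.OLP.SPL

set_option autoImplicit false
open scoped Classical
open Finset Pool.Agent.H74.OLP

namespace Pool.Agent.H49.OLP

theorem pf_NBH (h1 : T_GEO) : T_NBH := by
  intro F T ω β S z m hω hM
  obtain ⟨ga, gb, -⟩ := h1 F T ω S z m hω hM
  have hF : ∀ c x, c ≤ m → x ∈ Nb T β S → ∀ q : T.Walk x (z c),
      c ≤ β + q.length ∨ m - c ≤ β + q.length := by
    rintro c x hc ⟨s, hs, p, hp⟩ q
    have h := ga c hc s hs (p.append q).reverse
    rw [SimpleGraph.Walk.length_reverse, SimpleGraph.Walk.length_append] at h
    omega
  have hlen1 : ∀ {u v : F} (h : T.Adj u v), (SimpleGraph.Walk.cons h .nil).length = 1 :=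
    fun h => rfl
  have hlen2 : ∀ {u v w : F} (h : T.Adj u v) (h' : T.Adj v w),
      (SimpleGraph.Walk.cons h (.cons h' .nil)).length = 2 := fun h h' => rfl
  refine ⟨?_, ?_, ?_, ?_⟩
  · intro c hc1 hc2 y hy hadj
    rcases hy with hy | ⟨j, hj, rfl⟩
    · have := hF c y (by omega) hy (.cons hadj.symm .nil)
      rw [hlen1] at this
      omega
    · rcases lt_trichotomy c j with h | h | h
      · have := gb c j h.le hj (.cons hadj .nil)
        rw [hlen1] at this
        right
        congr 1
        omega
      · subst h
        exact absurd hadj (T.loopless.irrefl _)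
      · have := gb j c h.le (by omega) (.cons hadj.symm .nil)
        rw [hlen1] at this
        left
        congr 1
        omega
  · intro c hc1 hc2 x y hy hcx hxy
    rcases hy with hy | ⟨j, hj, rfl⟩
    · have := hF c y (by omega) hy (.cons hxy.symm (.cons hcx.symm .nil))
      rw [hlen2] at this
      omega
    · refine ⟨j, ?_, ?_, rfl⟩
      · rcases le_total c j with h | h
        · omega
        · have := gb j c h (by omega) (.cons hxy.symm (.cons hcx.symm .nil))
          rw [hlen2] at this
          omega
      · rcases le_total c j with h | h
        · have := gb c j h hj (.cons hcx (.cons hxy .nil))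
          rw [hlen2] at this
          omega
        · omega
  · intro c hc1 hc2 x hadj hx
    have := hF c x (by omega) hx (.cons hadj.symm .nil)
    rw [hlen1] at this
    omega
  · intro a L ha haL
    constructor
    · apply ip_of_lt
      intro i j hij hj
      refine ⟨fun he => ?_, ?_⟩
      · have h2 : z (a + i) = z (a + j) := he
        have := gb (a + i) (a + j) (by omega) (by omega)
          ((SimpleGraph.Walk.nil : T.Walk (z (a + i)) (z (a + i))).copy rfl h2)
        rw [SimpleGraph.Walk.length_copy, SimpleGraph.Walk.length_nil] at this
        omega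
      · constructor
        · intro h
          have := gb (a + i) (a + j) (by omega) (by omega) (.cons h .nil)
          rw [hlen1] at this
          omega
        · rintro rfl
          exact hM.wf (a + i) (by omega)
    · intro x i j hi hj hxi hxj
      by_contra hlt
      push Not at hlt
      have := gb (a + j) (a + i) (by omega) (by omega) (.cons hxj.symm (.cons hxi .nil))
      rw [hlen2] at this
      omega

end Pool.Agent.H49.OLP
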