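import Pool.Agent.H74.OLP.Targets

set_option autoImplicit false
open scoped Classical
open Finset Pool.Agent.H74.OLP

namespace Pool.Agent.H49.OLP

theorem pf_OTH (h1 : T_GEO) : T_OTH := by
  intro F T D ω t β S g z m c hD hω hM hβ1 hβt hpot hc1 hc2
  obtain ⟨ga, gb, -⟩ := h1 F T ω S z m hω hM
  have hseg : ∀ a b, a ≤ b → b ≤ m → ∃ p : T.Walk (z a) (z b), p.length = b - a ∧
      (∀ D, ws T D p = fs D z a b) ∧ ∀ x ∈ p.support, ∃ i, a ≤ i ∧ i ≤ b ∧ x = z i :=
    fun a b hab hb => seg T z a b hab (fun i _ hi => hM.wf i (by omega))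
  have hBt : Nb T (β + 1) S ⊆ Nb T t S := Nb_mono T hβt (fun _ h => h)
  have hBB : Nb T β S ⊆ Nb T (β + 1) S := Nb_mono T (by omega) (fun _ h => h)
  have hdist : ∀ r j, j ≤ m → z j ∈ Nb T r S → j ≤ r ∨ m - j ≤ r := by
    rintro r j hj ⟨s, hs, p, hp⟩
    have := ga j hj s hs p.reverse
    rw [SimpleGraph.Walk.length_reverse] at this
    omega
  have huniq : ∀ i j, i < j → j ≤ m → z i = z j → z i ∈ S := by
    intro i j hij hj he
    have := gb i j hij.le hj ((SimpleGraph.Walk.nil : T.Walk (z i) (z i)).copy rfl he)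
    rw [SimpleGraph.Walk.length_copy, SimpleGraph.Walk.length_nil] at this
    have hi : i = 0 := by omega
    rw [hi]
    exact hM.z0
  -- points near `S`
  have hnearL : ∀ j, j ≤ m → j ≤ β + 1 → g (z j) = g (z 0) + fs D z 0 j := by
    intro j hj hjβ
    obtain ⟨p, hp, hw, hsup⟩ := hseg 0 j (Nat.zero_le _) hj
    have h2 : ∀ y ∈ p.support, y ∈ Nb T t S := by
      intro y hy
      obtain ⟨i, -, hi, rfl⟩ := hsup y hy
      obtain ⟨p', hp', -, -⟩ := hseg 0 i (Nat.zero_le _) (by omega)
      exact ⟨z 0, hM.z0, p', by omega⟩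
    have h3 := pot_walk T hpot p h2
    rw [hw] at h3
    rw [h3]
    linear_combination - R2 (g (z 0))
  have hnearR : ∀ j, j ≤ m → m - j ≤ β + 1 → g (z j) = g (z m) + fs D z j m := by
    intro j hj hjβ
    obtain ⟨p, hp, hw, hsup⟩ := hseg j m hj le_rfl
    have h2 : ∀ y ∈ p.support, y ∈ Nb T t S := by
      intro y hy
      obtain ⟨i, hi1, hi2, rfl⟩ := hsup y hy
      obtain ⟨p', hp', -, -⟩ := hseg i m hi2 le_rfl
      exact ⟨z m, hM.zm, p'.reverse, by rw [SimpleGraph.Walk.length_reverse]; omega⟩
    have h3 := pot_walk T hpot p h2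
    rw [hw] at h3
    rw [h3]
    linear_combination - R2 (g (z m))
  -- the function
  set γ : F → R := fun x => if x ∈ Nb T β S then g x else
    if h : ∃ i, i < c ∧ x = z i then g (z 0) + fs D z 0 h.choose else
    if h : ∃ i, c < i ∧ i ≤ m ∧ x = z i then g (z m) + fs D z h.choose m else 0 with hγ
  have gB : ∀ x, x ∈ Nb T β S → γ x = g x := fun x hx => by
    simp only [hγ]; rw [if_pos hx]
  have gL : ∀ j, j < c → γ (z j) = g (z 0) + fs D z 0 j := by
    intro j hj
    by_cases hB : z j ∈ Nb T β S
    · rw [gB _ hB]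
      have := hdist β j (by omega) hB
      exact hnearL j (by omega) (by omega)
    · have hex : ∃ i, i < c ∧ z j = z i := ⟨j, hj, rfl⟩
      simp only [hγ]
      rw [if_neg hB, dif_pos hex]
      have hch : hex.choose = j := by
        obtain ⟨h2, h3⟩ := hex.choose_spec
        rcases lt_trichotomy hex.choose j with h | h | h
        · exfalso
          apply hB
          have := huniq _ _ h (by omega) h3.symm
          rw [h3]
          exact Nb_self T β this
        · exact h
        · exfalso
          apply hB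
          have := huniq _ _ h (by omega) h3
          exact Nb_self T β this
      rw [hch]
  have gR : ∀ j, c < j → j ≤ m → γ (z j) = g (z m) + fs D z j m := by
    intro j hj hjm
    by_cases hB : z j ∈ Nb T β S
    · rw [gB _ hB]
      have := hdist β j (by omega) hB
      exact hnearR j (by omega) (by omega)
    · have hnex : ¬ ∃ i, i < c ∧ z j = z i := by
        rintro ⟨i, hi, he⟩
        apply hB
        have := huniq i j (by omega) hjm he.symm
        rw [he]
        exact Nb_self T β this
      have hex : ∃ i, c < i ∧ i ≤ m ∧ z j = z i := ⟨j, hj, hjm, rfl⟩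
      simp only [hγ]
      rw [if_neg hB, dif_neg hnex, dif_pos hex]
      have hch : hex.choose = j := by
        obtain ⟨h2, h2', h3⟩ := hex.choose_spec
        rcases lt_trichotomy hex.choose j with h | h | h
        · exfalso
          apply hB
          have := huniq _ _ h (by omega) h3.symm
          rw [h3]
          exact Nb_self T β this
        · exact h
        · exfalso
          apply hB
          have := huniq _ _ h (by omega) h3
          exact Nb_self T β this
      rw [hch]
  have gnear : ∀ j, j ≤ m → z j ∈ Nb T (β + 1) S → γ (z j) = g (z j) := by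
    intro j hj hjB
    rcases hdist (β + 1) j hj hjB with h | h
    · rw [gL j (by omega)]
      exact (hnearL j hj h).symm
    · rw [gR j (by omega) hj]
      exact (hnearR j hj h).symm
  have hBedge : ∀ x y, x ∈ Nb T β S → y ∈ Nb T β S ∪ Im z m → T.Adj x y →
      D x y = γ x + γ y := by
    intro x y hx hy hxy
    have hy' : y ∈ Nb T (β + 1) S := Nb_adj T hx hxy
    have hgy : γ y = g y := by
      rcases hy with hy | ⟨j, hj, rfl⟩
      · exact gB y hy
      · exact gnear j hj hy'
    rw [gB x hx, hgy]
    exact hpot x (hBt (hBB hx)) y (hBt hy') hxy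
  have hzedge : ∀ i j, i < j → j ≤ m → i ≠ c → j ≠ c → z i ∉ Nb T β S → T.Adj (z i) (z j) →
      D (z i) (z j) = γ (z i) + γ (z j) := by
    intro i j hij hj hic hjc hi hadj
    have h2 := gb i j hij.le hj (.cons hadj .nil)
    have h3 : (SimpleGraph.Walk.cons hadj .nil).length = 1 := rfl
    rw [h3] at h2
    have h4 : ¬ i ≤ 1 := by
      intro hi1
      apply hi
      obtain ⟨p', hp', -, -⟩ := hseg 0 i (Nat.zero_le _) (by omega)
      exact ⟨z 0, hM.z0, p', by omega⟩
    have h5 : j = i + 1 := by omega
    subst h5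
    rcases lt_or_gt_of_ne hic with h | h
    · rw [gL i h, gL (i + 1) (by omega), fs_succ D z (Nat.zero_le i)]
      linear_combination - R2 (g (z 0)) - R2 (fs D z 0 i)
    · rw [gR i h (by omega), gR (i + 1) (by omega) hj,
        fs_split D z (by omega : i ≤ i + 1) hj, fs_one]
      linear_combination - R2 (g (z m)) - R2 (fs D z (i + 1) m)
  refine ⟨γ, ?_, gL (c - 1) (by omega), gR (c + 1) (by omega) (by omega)⟩
  rintro x ⟨hx, hxc⟩ y ⟨hy, hyc⟩ hxy
  by_cases hxB : x ∈ Nb T β S
  · exact hBedge x y hxB hy hxy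
  · by_cases hyB : y ∈ Nb T β S
    · rw [hD x y, hBedge y x hyB hx hxy.symm, add_comm]
    · rcases hx with hx | ⟨i, hi, rfl⟩
      · exact absurd hx hxB
      · rcases hy with hy | ⟨j, hj, rfl⟩
        · exact absurd hy hyB
        · have hic : i ≠ c := fun h => hxc (by rw [h]; rfl)
          have hjc : j ≠ c := fun h => hyc (by rw [h]; rfl)
          rcases lt_trichotomy i j with h | h | h
          · exact hzedge i j h hj hic hjc hxB hxy
          · subst h
            exact absurd hxy (T.loopless.irrefl _)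
          · rw [hD, hzedge j i h hi hjc hic hyB hxy.symm, add_comm]

end Pool.Agent.H49.OLP
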