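import Pool.Agent.H74.OLP.Targets

set_option autoImplicit false
open scoped Classical
open Finset Pool.Agent.H74.OLP

namespace Pool.Agent.H49.OLP

private theorem dvr {n x y : ℕ} (hx : x < n) (hy : y < n) :
    (n : ℤ) ∣ (x : ℤ) - y - 1 ↔ (x = y + 1 ∨ (x = 0 ∧ y + 1 = n)) := by
  constructor
  · rintro ⟨k, hk⟩
    have hx' : (x : ℤ) < n := by exact_mod_cast hx
    have hy' : (y : ℤ) < n := by exact_mod_cast hy
    have hx0 : (0 : ℤ) ≤ x := Int.natCast_nonneg x
    have hy0 : (0 : ℤ) ≤ y := Int.natCast_nonneg y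
    have hn0 : (0 : ℤ) < n := by omega
    have hk1 : k < 1 := by
      by_contra h
      push Not at h
      have : (n : ℤ) * 1 ≤ n * k := mul_le_mul_of_nonneg_left h hn0.le
      omega
    have hk2 : -2 < k := by
      by_contra h
      push Not at h
      have : (n : ℤ) * k ≤ n * (-2) := mul_le_mul_of_nonneg_left h hn0.le
      omega
    rcases (by omega : k = 0 ∨ k = -1) with rfl | rfl
    · left; omega
    · right; omega
  · rintro (h | ⟨h1, h2⟩)
    · exact ⟨0, by omega⟩
    · exact ⟨-1, by omega⟩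

private theorem dve {n x y : ℕ} (hx : x < n) (hy : y < n) :
    (n : ℤ) ∣ (x : ℤ) - y ↔ x = y := by
  constructor
  · rintro ⟨k, hk⟩
    have hx' : (x : ℤ) < n := by exact_mod_cast hx
    have hy' : (y : ℤ) < n := by exact_mod_cast hy
    have hx0 : (0 : ℤ) ≤ x := Int.natCast_nonneg x
    have hy0 : (0 : ℤ) ≤ y := Int.natCast_nonneg y
    have hn0 : (0 : ℤ) < n := by omega
    have hk1 : k < 1 := by
      by_contra h
      push Not at h
      have : (n : ℤ) * 1 ≤ n * k := mul_le_mul_of_nonneg_left h hn0.le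
      omega
    have hk2 : -1 < k := by
      by_contra h
      push Not at h
      have : (n : ℤ) * k ≤ n * (-1) := mul_le_mul_of_nonneg_left h hn0.le
      omega
    have hk0 : k = 0 := by omega
    subst hk0
    omega
  · rintro rfl
    exact ⟨0, by ring⟩

theorem pf_RPL (h1 : T_MKC) : T_RPL := by
  intro F T n c L L' y hC hL2 hLn hn' hIP hy0 hyL hmid
  have ceq : ∀ i j : ℕ, i < n → j < n → (c i = c j ↔ i = j) := fun i j hi hj => by
    rw [hC.eqv, dve hi hj]
  have cadj : ∀ i j : ℕ, i < n → j < n → (T.Adj (c i) (c j) ↔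
      ((i = j + 1 ∨ (i = 0 ∧ j + 1 = n)) ∨ (j = i + 1 ∨ (j = 0 ∧ i + 1 = n)))) := fun i j hi hj => by
    rw [hC.adj, dvr hi hj, dvr hj hi]
  have hc0 : c ((0 : ℕ) : ℤ) = y 0 := by rw [hy0]; rfl
  -- the length of `y`
  have hL'2 : 2 ≤ L' := by
    rcases (by omega : L' = 0 ∨ L' = 1 ∨ 2 ≤ L') with h | h | h
    · exfalso
      subst h
      have h2 : c ((0 : ℕ) : ℤ) = c ((L : ℕ) : ℤ) := by rw [hc0, hyL]
      have := (ceq 0 L (by omega) (by omega)).1 h2
      omega
    · exfalso
      subst h
      have h2 : T.Adj (y 0) (y 1) := (hIP.adj 0 1 (by omega) le_rfl).2 (Or.inl rfl)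
      rw [← hc0, hyL] at h2
      have := (cadj 0 L (by omega) (by omega)).1 h2
      omega
    · exact h
  set u : ℕ → F := fun i => if i ≤ L' then y i else c ((i - L' + L : ℕ) : ℤ) with hu
  have uA : ∀ i, i ≤ L' → u i = y i := fun i hi => by simp only [hu]; rw [if_pos hi]
  have uB : ∀ k, 1 ≤ k → u (L' + k) = c ((L + k : ℕ) : ℤ) := fun k hk => by
    simp only [hu]
    rw [if_neg (by omega)]
    congr 2
    omega
  have hpair : ∀ i j, i < j → j < n - L + L' → u i ≠ u j ∧
      (T.Adj (u i) (u j) ↔ (j = i + 1 ∨ (i = 0 ∧ j + 1 = n - L + L'))) := by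
    intro i j hij hj
    by_cases hjL : j ≤ L'
    · rw [uA i (by omega), uA j hjL, hIP.adj i j (by omega) hjL]
      refine ⟨fun h => ?_, by omega⟩
      have := hIP.inj i j (by omega) hjL h
      omega
    · obtain ⟨l, hl1, rfl⟩ : ∃ l, 1 ≤ l ∧ j = L' + l := ⟨j - L', by omega, by omega⟩
      by_cases hiL : i ≤ L'
      · rw [uA i hiL, uB l hl1]
        rcases (by omega : i = 0 ∨ (1 ≤ i ∧ i < L') ∨ i = L') with rfl | ⟨hi1, hi2⟩ | rfl
        · rw [← hc0, cadj 0 (L + l) (by omega) (by omega)]
          refine ⟨fun h => ?_, by omega⟩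
          have := (ceq 0 (L + l) (by omega) (by omega)).1 h
          omega
        · have := hmid i hi1 hi2 (L + l) (by omega) (by omega)
          refine ⟨this.2, fun h => absurd h this.1, fun h => by omega⟩
        · rw [hyL, cadj L (L + l) (by omega) (by omega)]
          refine ⟨fun h => ?_, by omega⟩
          have := (ceq L (L + l) (by omega) (by omega)).1 h
          omega
      · obtain ⟨k, hk1, rfl⟩ : ∃ k, 1 ≤ k ∧ i = L' + k := ⟨i - L', by omega, by omega⟩
        rw [uB k hk1, uB l hl1, cadj (L + k) (L + l) (by omega) (by omega)]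
        refine ⟨fun h => ?_, by omega⟩
        have := (ceq (L + k) (L + l) (by omega) (by omega)).1 h
        omega
  obtain ⟨c', hC', -, hpts, hsum⟩ := h1 F T (n - L + L') u hn'
    (by
      intro i hi j hj he
      rcases lt_trichotomy i j with h | h | h
      · exact absurd he (hpair i j h hj).1
      · exact h
      · exact absurd he.symm (hpair j i h hi).1)
    (by
      intro i hi j hj
      rcases lt_trichotomy i j with h | h | h
      · rw [(hpair i j h hj).2]
        omega
      · subst h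
        simp
        omega
      · rw [SimpleGraph.adj_comm, (hpair j i h hi).2]
        omega)
  refine ⟨c', hC', ?_, ?_⟩
  · intro D
    rw [hsum D]
    have hcs : cs D n c = fs D (fun i : ℕ => c (i : ℤ)) 0 L +
        fs D (fun i : ℕ => c (i : ℤ)) L (n - 1) + D (c ((n - 1 : ℕ) : ℤ)) (y 0) := by
      have e1 : cs D n c = fs D (fun i : ℕ => c (i : ℤ)) 0 (n - 1 + 1) := by
        unfold cs fs
        rw [Nat.sub_add_cancel (by omega), Finset.range_eq_Ico]
        refine Finset.sum_congr rfl fun i _ => ?_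
        push_cast
        rfl
      rw [e1, fs_succ D _ (Nat.zero_le (n - 1)), fs_split D _ (Nat.zero_le L) (by omega)]
      congr 2
      change c ((n - 1 + 1 : ℕ) : ℤ) = y 0
      rw [hy0, hC.eqv]
      exact ⟨1, by rw [Nat.sub_add_cancel (by omega)]; ring⟩
    have hL1 : fs D u 0 L' = fs D y 0 L' := fs_congr D fun i _ hi => uA i hi
    have hL2' : fs D u L' (n - L + L' - 1) = fs D (fun i : ℕ => c (i : ℤ)) L (n - 1) := by
      have a1 := fs_shift D u 0 (n - L - 1) L'
      have a2 := fs_shift D (fun i : ℕ => c (i : ℤ)) 0 (n - L - 1) L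
      have a3 : n - L - 1 + L' = n - L + L' - 1 := by omega
      have a4 : n - L - 1 + L = n - 1 := by omega
      rw [Nat.zero_add, a3] at a1
      rw [Nat.zero_add, a4] at a2
      rw [← a1, ← a2]
      refine fs_congr D fun i _ _ => ?_
      change u (i + L') = c ((i + L : ℕ) : ℤ)
      rcases Nat.eq_zero_or_pos i with rfl | hi
      · rw [Nat.zero_add, Nat.zero_add, uA L' le_rfl, hyL]
      · rw [Nat.add_comm i L', uB i hi, Nat.add_comm L i]
    have hlast : u (n - L + L' - 1) = c ((n - 1 : ℕ) : ℤ) := by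
      have := uB (n - L - 1) (by omega)
      rw [show L' + (n - L - 1) = n - L + L' - 1 by omega,
        show L + (n - L - 1) = n - 1 by omega] at this
      exact this
    rw [fs_split D u (Nat.zero_le L') (by omega : L' ≤ n - L + L' - 1), hL1, hL2', hlast,
      uA 0 (Nat.zero_le _), hcs]
    ring
  · intro i
    obtain ⟨j, hj, he⟩ := hpts i
    rw [he]
    by_cases hjL : j ≤ L'
    · exact Or.inr ⟨j, hjL, uA j hjL⟩
    · refine Or.inl ⟨((L + (j - L') : ℕ) : ℤ), ?_⟩
      have := uB (j - L') (by omega)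
      rwa [show L' + (j - L') = j by omega] at this

end Pool.Agent.H49.OLP
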