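import Pool.Agent.H74.OLP.Targets

set_option autoImplicit false
open scoped Classical
open Finset Pool.Agent.H74.OLP

namespace Pool.Agent.H49.OLP

theorem pf_SDF : T_SDF := by
  intro F T L z p c hP hS
  refine ⟨?_, ?_, ?_, ?_, ?_⟩
  · intro i j k hi1 hiL hj1 hjp hki
    constructor
    · intro h
      have h2 := hP.two (c i j) i k (by omega) (by omega) (hS.adj i j hi1 hiL hj1 hjp).symm h.symm
      rcases (by omega : k + 1 = i ∨ k + 2 = i) with hk | hk
      · subst hk
        have := (hS.cx (k + 1) j hi1 hiL hj1 hjp).1 (by simpa using h)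
        exact ⟨this, Or.inl rfl⟩
      · subst hk
        have hA : T.Adj (z (k + 1)) (c (k + 2) j) := by
          rcases hP.q4 (z k) (z (k + 1)) (z (k + 2)) (c (k + 2) j)
            ((hP.adj k (k + 1) (by omega) (by omega)).2 (Or.inl rfl))
            ((hP.adj (k + 1) (k + 2) (by omega) (by omega)).2 (Or.inl rfl))
            (hS.adj (k + 2) j hi1 hiL hj1 hjp) h.symm
            (fun he => by
              have := hP.inj k (k + 2) (by omega) (by omega) he
              omega)
            (fun he => by
              have := hS.nx (k + 2) j hi1 hiL hj1 hjp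
              exact this (by simpa using he.symm)) with h3 | h3
          · have := (hP.adj k (k + 2) (by omega) (by omega)).1 h3
            omega
          · exact h3
        have hj : j = 1 := (hS.cx (k + 2) j hi1 hiL hj1 hjp).1 (by simpa using hA)
        subst hj
        have hlk := hS.lk (k + 1) (by omega) (by omega)
        rw [show k + 1 + 1 = k + 2 by ring] at hlk
        rw [← hlk] at h
        have hpk := hS.pos (k + 1) (by omega) (by omega)
        have := (hS.cx (k + 1) (p (k + 1)) (by omega) (by omega) hpk le_rfl).1 (by simpa using h)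
        exact ⟨rfl, Or.inr ⟨rfl, by simpa using this⟩⟩
    · rintro ⟨rfl, hk | ⟨hk, hpk⟩⟩
      · subst hk
        have := (hS.cx (k + 1) 1 hi1 hiL hj1 hjp).2 rfl
        simpa using this
      · subst hk
        have hpk' : p (k + 1) = 1 := by simpa using hpk
        have hlk := hS.lk (k + 1) (by omega) (by omega)
        rw [show k + 1 + 1 = k + 2 by ring, hpk'] at hlk
        rw [← hlk]
        have := (hS.cx (k + 1) 1 (by omega) (by omega) le_rfl (by omega)).2 rfl
        simpa using this
  · intro i j k hi1 hiL hj1 hjp hki hkL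
    constructor
    · intro h
      have h2 := hP.two (c i j) k i (by omega) (by omega) h.symm (hS.adj i j hi1 hiL hj1 hjp).symm
      rcases (by omega : k = i + 1 ∨ k = i + 2) with hk | hk
      · subst hk
        exact ⟨(hS.cy i j hi1 hiL hj1 hjp).1 h, Or.inl rfl⟩
      · subst hk
        have hA : T.Adj (z (i + 1)) (c i j) := by
          rcases hP.q4 (z (i + 2)) (z (i + 1)) (z i) (c i j)
            ((hP.adj (i + 2) (i + 1) (by omega) (by omega)).2 (Or.inr rfl))
            ((hP.adj (i + 1) i (by omega) (by omega)).2 (Or.inr rfl))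
            (hS.adj i j hi1 hiL hj1 hjp) h.symm
            (fun he => by
              have := hP.inj (i + 2) i (by omega) (by omega) he
              omega)
            (fun he => hS.ny i j hi1 hiL hj1 hjp he.symm) with h3 | h3
          · have := (hP.adj (i + 2) i (by omega) (by omega)).1 h3
            omega
          · exact h3
        have hj : j = p i := (hS.cy i j hi1 hiL hj1 hjp).1 hA
        subst hj
        have hlk := hS.lk i (by omega) (by omega)
        rw [hlk] at h
        have hpk := hS.pos (i + 1) (by omega) (by omega)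
        have := (hS.cy (i + 1) 1 (by omega) (by omega) le_rfl hpk).1 h
        exact ⟨rfl, Or.inr ⟨rfl, this.symm⟩⟩
    · rintro ⟨rfl, hk | ⟨hk, hpk⟩⟩
      · subst hk
        exact (hS.cy i (p i) hi1 hiL hj1 le_rfl).2 rfl
      · subst hk
        rw [hS.lk i (by omega) (by omega)]
        exact (hS.cy (i + 1) 1 (by omega) (by omega) le_rfl (by omega)).2 hpk.symm
  · intro i j k hi1 hiL hj1 hjp hkL he
    have h := hS.adj i j hi1 hiL hj1 hjp
    rw [he] at h
    rcases (hP.adj i k (by omega) hkL).1 h with hk | hk
    · subst hk
      exact hS.ny i j hi1 hiL hj1 hjp he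
    · subst hk
      exact hS.nx (k + 1) j hi1 hiL hj1 hjp (by simpa using he)
  · rintro i hi1 hiL ⟨h1, h2⟩
    have ha : T.Adj (z (i - 1)) (c i 1) := (hS.cx i 1 hi1 (by omega) le_rfl (by omega)).2 rfl
    have hlk := hS.lk i hi1 hiL
    rw [h1] at hlk
    have hb : T.Adj (z (i + 1 + 1)) (c i 1) := by
      rw [hlk]
      exact (hS.cy (i + 1) 1 (by omega) hiL le_rfl (by omega)).2 h2.symm
    have := hP.two (c i 1) (i + 1 + 1) (i - 1) (by omega) (by omega) hb.symm ha.symm
    omega
  · intro D hD i hi1 hiL a b ha hab hb
    induction b, hab using Nat.le_induction with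
    | base => rw [fs_self, R2]
    | succ b hab ih =>
      rw [fs_succ D (c i) hab, ih (by omega)]
      have h1 := hS.adj i b hi1 hiL (by omega) (by omega)
      have h2 := hS.adj i (b + 1) hi1 hiL (by omega) hb
      have h3 : T.Adj (c i b) (c i (b + 1)) :=
        (hS.cc i b (b + 1) hi1 hiL (by omega) (by omega) (by omega) hb).2 (Or.inl rfl)
      have h4 := hD.2 _ _ _ h1 h3 h2.symm
      rw [hD.1 (c i (b + 1)) (z i)] at h4
      linear_combination h4 - R2 (D (z i) (c i (b + 1)))

end Pool.Agent.H49.OLP
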