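import Pool.Agent.H74.OLP.Targets

set_option autoImplicit false
open scoped Classical
open Finset Pool.Agent.H74.OLP

namespace Pool.Agent.H49.OLP

theorem ip_of_lt {F : Type} {T : SimpleGraph F} {L : ℕ} {z : ℕ → F}
    (h : ∀ i j, i < j → j ≤ L → z i ≠ z j ∧ (T.Adj (z i) (z j) ↔ j = i + 1)) : IP T L z := by
  constructor
  · intro i j hi hj he
    rcases lt_trichotomy i j with hij | hij | hij
    · exact absurd he (h i j hij hj).1
    · exact hij
    · exact absurd he.symm (h j i hij hi).1
  · intro i j hi hj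
    rcases lt_trichotomy i j with hij | hij | hij
    · rw [(h i j hij hj).2]
      omega
    · subst hij
      simp
    · rw [SimpleGraph.adj_comm, (h j i hij hi).2]
      omega

theorem pf_SPL : T_SPL := by
  intro F T L z u a b s hIP hs hab hbL huinj huadj hleft hright hsum hnew
  set y : ℕ → F := fun i => if i ≤ a then z i else if i ≤ a + s then u (i - a)
    else z (i - (a + s + 1) + b) with hy
  have yA : ∀ i, i ≤ a → y i = z i := fun i hi => by simp only [hy]; rw [if_pos hi]
  have yB : ∀ j, 1 ≤ j → j ≤ s → y (a + j) = u j := fun j h1 h2 => by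
    simp only [hy]
    rw [if_neg (by omega), if_pos (by omega), Nat.add_sub_cancel_left]
  have yC : ∀ k, b ≤ k → y (a + s + 1 + (k - b)) = z k := fun k h1 => by
    simp only [hy]
    rw [if_neg (by omega), if_neg (by omega)]
    congr 1
    omega
  have hcase : ∀ i, i ≤ a + 1 + s + (L - b) → (i ≤ a) ∨ (∃ j, 1 ≤ j ∧ j ≤ s ∧ i = a + j) ∨
      ∃ k, b ≤ k ∧ k ≤ L ∧ i = a + s + 1 + (k - b) := by
    intro i hi
    by_cases h1 : i ≤ a
    · exact Or.inl h1
    · by_cases h2 : i ≤ a + s
      · exact Or.inr (Or.inl ⟨i - a, by omega, by omega, by omega⟩)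
      · exact Or.inr (Or.inr ⟨i - (a + s + 1) + b, by omega, by omega, by omega⟩)
  refine ⟨a + 1 + s + (L - b), y, ?_, ?_, ?_, ?_, ?_, ?_⟩
  · apply ip_of_lt
    intro i j hij hj
    rcases hcase i (by omega) with hi | ⟨i', hi1, hi2, rfl⟩ | ⟨k, hk1, hk2, rfl⟩
    · rcases hcase j hj with hj' | ⟨j', hj1, hj2, rfl⟩ | ⟨l, hl1, hl2, rfl⟩
      · rw [yA i hi, yA j hj', hIP.adj i j (by omega) (by omega)]
        refine ⟨fun h => ?_, by omega⟩
        have := hIP.inj i j (by omega) (by omega) h
        omega
      · rw [yA i hi, yB j' hj1 hj2]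
        have h1 := hleft j' i hj1 hj2 hi
        refine ⟨fun h => h1.2 h.symm, ?_⟩
        rw [h1.1]
        omega
      · rw [yA i hi, yC l hl1, hIP.adj i l (by omega) (by omega)]
        refine ⟨fun h => ?_, by omega⟩
        have := hIP.inj i l (by omega) (by omega) h
        omega
    · rcases hcase j hj with hj' | ⟨j', hj1, hj2, rfl⟩ | ⟨l, hl1, hl2, rfl⟩
      · omega
      · rw [yB i' hi1 hi2, yB j' hj1 hj2, huadj i' j' hi1 hi2 hj1 hj2]
        refine ⟨fun h => ?_, by omega⟩
        have := huinj i' j' hi1 hi2 hj1 hj2 h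
        omega
      · rw [yB i' hi1 hi2, yC l hl1]
        have h1 := hright i' l hi1 hi2 hl1 hl2
        refine ⟨h1.2, ?_⟩
        rw [SimpleGraph.adj_comm, h1.1]
        omega
    · rcases hcase j hj with hj' | ⟨j', hj1, hj2, rfl⟩ | ⟨l, hl1, hl2, rfl⟩
      · omega
      · omega
      · rw [yC k hk1, yC l hl1, hIP.adj k l (by omega) (by omega)]
        refine ⟨fun h => ?_, by omega⟩
        have := hIP.inj k l (by omega) (by omega) h
        omega
  · exact yA 0 (Nat.zero_le _)
  · have := yC L hbL
    rw [← this]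
    congr 1
    omega
  · push_cast
    omega
  · intro D hD
    have h1 := hsum D hD
    have e1 : fs D y 0 a = fs D z 0 a := fs_congr D fun i _ hi => yA i hi
    have e2 : D (y a) (y (a + 1)) = D (z a) (u 1) := by rw [yA a le_rfl, yB 1 le_rfl hs]
    have e3 : fs D y (a + 1) (a + s) = fs D u 1 s := by
      have h2 := fs_shift D y 1 s a
      rw [Nat.add_comm 1 a, Nat.add_comm s a] at h2
      rw [← h2]
      refine fs_congr D fun i hi1 hi2 => ?_
      change y (i + a) = u i
      rw [Nat.add_comm i a, yB i hi1 hi2]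
    have e4 : D (y (a + s)) (y (a + s + 1)) = D (u s) (z b) := by
      have h3 := yC b le_rfl
      rw [Nat.sub_self, Nat.add_zero] at h3
      rw [yB s hs le_rfl, h3]
    have e5 : fs D y (a + s + 1) (a + 1 + s + (L - b)) = fs D z b L := by
      have h2 := fs_shift D y 0 (L - b) (a + s + 1)
      have h4 := fs_shift D z 0 (L - b) b
      rw [Nat.zero_add] at h2 h4
      have h5 : L - b + (a + s + 1) = a + 1 + s + (L - b) := by omega
      have h6 : L - b + b = L := by omega
      rw [h5] at h2
      rw [h6] at h4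
      rw [← h2, ← h4]
      refine fs_congr D fun i _ _ => ?_
      change y (i + (a + s + 1)) = z (i + b)
      have h7 := yC (i + b) (by omega)
      rw [Nat.add_sub_cancel] at h7
      rw [← h7]
      congr 1
      omega
    rw [fs_split D y (Nat.zero_le a) (by omega), fs_split D y (by omega : a ≤ a + 1) (by omega),
      fs_split D y (by omega : a + 1 ≤ a + s) (by omega),
      fs_split D y (by omega : a + s ≤ a + s + 1) (by omega), fs_one, fs_one, e1, e2, e3, e4, e5,
      fs_split D z (Nat.zero_le a) (by omega : a ≤ L), fs_split D z (by omega : a ≤ b) hbL, ← h1]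
    ring
  · intro i hi
    rcases hcase i hi with hi' | ⟨j, hj1, hj2, rfl⟩ | ⟨k, hk1, hk2, rfl⟩
    · exact Or.inl ⟨i, by omega, yA i hi'⟩
    · rw [yB j hj1 hj2]
      exact hnew j hj1 hj2
    · exact Or.inl ⟨k, hk2, yC k hk1⟩

end Pool.Agent.H49.OLP
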