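import Pool.Agent.H74.OLP.Targets

set_option autoImplicit false
open scoped Classical
open Finset Pool.Agent.H74.OLP

namespace Pool.Agent.H49.OLP

theorem pf_TO (h1 : T_SPL) (h2 : T_SDF) : T_TO := by
  intro F T L z p c hP hS i hi5 hiL
  obtain ⟨s1, s2, s3, -, s5⟩ := h2 F T L z p c hP hS
  have hpi : 1 ≤ p i := hS.pos i (by omega) (by omega)
  have hstep : ∀ k, k + 1 ≤ L → T.Adj (z k) (z (k + 1)) := fun k hk =>
    (hP.adj k (k + 1) (by omega) (by omega)).2 (Or.inl rfl)
  -- left end
  obtain ⟨a, ha, hleft, hlsum⟩ : ∃ a : ℕ, ((a : ℤ) = (i : ℤ) - 1 - (if p (i - 1) = 1 then 1 else 0)) ∧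
      (∀ j k, 1 ≤ j → j ≤ p i → k ≤ a → (T.Adj (z k) (c i j) ↔ (k = a ∧ j = 1)) ∧ c i j ≠ z k) ∧
      (∀ D, Tri T D → D (z a) (c i 1) + D (z i) (c i 1) = fs D z a i) := by
    have hA1 : T.Adj (z (i - 1)) (c i 1) := (s1 i 1 (i - 1) (by omega) (by omega) le_rfl hpi
      (by omega)).2 ⟨rfl, Or.inl (by omega)⟩
    have hA2 : T.Adj (z i) (c i 1) := hS.adj i 1 (by omega) (by omega) le_rfl hpi
    by_cases hp : p (i - 1) = 1
    · rw [if_pos hp]
      refine ⟨i - 2, by omega, ?_, ?_⟩
      · intro j k hj1 hjp hk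
        refine ⟨?_, s3 i j k (by omega) (by omega) hj1 hjp (by omega)⟩
        rw [s1 i j k (by omega) (by omega) hj1 hjp (by omega)]
        constructor
        · rintro ⟨h3, h4⟩
          exact ⟨by omega, h3⟩
        · rintro ⟨h3, h4⟩
          exact ⟨h4, Or.inr ⟨by omega, hp⟩⟩
      · intro D hD
        have hA0 : T.Adj (z (i - 2)) (c i 1) := (s1 i 1 (i - 2) (by omega) (by omega) le_rfl hpi
          (by omega)).2 ⟨rfl, Or.inr ⟨by omega, hp⟩⟩
        have e1 : i - 2 + 1 = i - 1 := by omega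
        have e2 : i - 1 + 1 = i := by omega
        have hst1 := hstep (i - 2) (by omega)
        have hst2 := hstep (i - 1) (by omega)
        rw [e1] at hst1
        rw [e2] at hst2
        have t1 := hD.2 _ _ _ hst1 hA1 hA0.symm
        have t2 := hD.2 _ _ _ hst2 hA2 hA1.symm
        have f1 : fs D z (i - 2) i = D (z (i - 2)) (z (i - 1)) + D (z (i - 1)) (z i) := by
          have := fs_succ D z (show i - 2 ≤ i - 1 by omega)
          rw [e2] at this
          rw [this]
          have h3 := fs_one D z (i - 2)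
          rw [e1] at h3
          rw [h3]
        rw [f1]
        rw [hD.1 (c i 1) (z (i - 2))] at t1
        rw [hD.1 (c i 1) (z (i - 1))] at t2
        have r1 := R2 (D (z (i - 2)) (c i 1))
        have r2 := R2 (D (z i) (c i 1))
        have r3 := R2 (D (z (i - 1)) (c i 1))
        linear_combination r1 + r2 + r3 - t1 - t2
    · rw [if_neg hp]
      refine ⟨i - 1, by omega, ?_, ?_⟩
      · intro j k hj1 hjp hk
        refine ⟨?_, s3 i j k (by omega) (by omega) hj1 hjp (by omega)⟩
        rw [s1 i j k (by omega) (by omega) hj1 hjp (by omega)]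
        constructor
        · rintro ⟨h3, h4⟩
          rcases h4 with h4 | ⟨-, h4⟩
          · exact ⟨by omega, h3⟩
          · exact absurd h4 hp
        · rintro ⟨h3, h4⟩
          exact ⟨h4, Or.inl (by omega)⟩
      · intro D hD
        have e2 : i - 1 + 1 = i := by omega
        have hst2 := hstep (i - 1) (by omega)
        rw [e2] at hst2
        have t2 := hD.2 _ _ _ hst2 hA2 hA1.symm
        have f1 : fs D z (i - 1) i = D (z (i - 1)) (z i) := by
          have h3 := fs_one D z (i - 1)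
          rwa [e2] at h3
        rw [f1]
        rw [hD.1 (c i 1) (z (i - 1))] at t2
        have r2 := R2 (D (z i) (c i 1))
        have r3 := R2 (D (z (i - 1)) (c i 1))
        linear_combination r2 + r3 - t2
  -- right end
  obtain ⟨b, hb, hright, hrsum⟩ : ∃ b : ℕ,
      ((b : ℤ) = (i : ℤ) + 1 + (if p (i + 1) = 1 then 1 else 0)) ∧
      (∀ j k, 1 ≤ j → j ≤ p i → b ≤ k → k ≤ L →
        (T.Adj (z k) (c i j) ↔ (k = b ∧ j = p i)) ∧ c i j ≠ z k) ∧
      (∀ D, Tri T D → D (c i (p i)) (z b) + D (z i) (c i (p i)) = fs D z i b) := by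
    have hA1 : T.Adj (z (i + 1)) (c i (p i)) := (s2 i (p i) (i + 1) (by omega) (by omega) hpi le_rfl
      (by omega) (by omega)).2 ⟨rfl, Or.inl rfl⟩
    have hA2 : T.Adj (z i) (c i (p i)) := hS.adj i (p i) (by omega) (by omega) hpi le_rfl
    by_cases hp : p (i + 1) = 1
    · rw [if_pos hp]
      refine ⟨i + 2, by omega, ?_, ?_⟩
      · intro j k hj1 hjp hk hkL
        refine ⟨?_, s3 i j k (by omega) (by omega) hj1 hjp (by omega)⟩
        rw [s2 i j k (by omega) (by omega) hj1 hjp (by omega) hkL]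
        constructor
        · rintro ⟨h3, h4⟩
          exact ⟨by omega, h3⟩
        · rintro ⟨h3, h4⟩
          exact ⟨h4, Or.inr ⟨by omega, hp⟩⟩
      · intro D hD
        have hA0 : T.Adj (z (i + 2)) (c i (p i)) := (s2 i (p i) (i + 2) (by omega) (by omega) hpi
          le_rfl (by omega) (by omega)).2 ⟨rfl, Or.inr ⟨rfl, hp⟩⟩
        have hst1 := hstep i (by omega)
        have hst2 := hstep (i + 1) (by omega)
        have t1 := hD.2 _ _ _ hst1 hA1 hA2.symm
        have t2 := hD.2 _ _ _ hst2 hA0 hA1.symm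
        have f1 : fs D z i (i + 2) = D (z i) (z (i + 1)) + D (z (i + 1)) (z (i + 1 + 1)) := by
          rw [show i + 2 = i + 1 + 1 by ring, fs_succ D z (by omega : i ≤ i + 1), fs_one]
        rw [f1]
        rw [hD.1 (c i (p i)) (z i)] at t1
        rw [hD.1 (c i (p i)) (z (i + 1))] at t2
        rw [hD.1 (c i (p i)) (z (i + 2))]
        have r1 := R2 (D (z (i + 2)) (c i (p i)))
        have r2 := R2 (D (z i) (c i (p i)))
        have r3 := R2 (D (z (i + 1)) (c i (p i)))
        linear_combination r1 + r2 + r3 - t1 - t2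
    · rw [if_neg hp]
      refine ⟨i + 1, by omega, ?_, ?_⟩
      · intro j k hj1 hjp hk hkL
        refine ⟨?_, s3 i j k (by omega) (by omega) hj1 hjp (by omega)⟩
        rw [s2 i j k (by omega) (by omega) hj1 hjp (by omega) hkL]
        constructor
        · rintro ⟨h3, h4⟩
          rcases h4 with h4 | ⟨-, h4⟩
          · exact ⟨by omega, h3⟩
          · exact absurd h4 hp
        · rintro ⟨h3, h4⟩
          exact ⟨h4, Or.inl (by omega)⟩
      · intro D hD
        have hst1 := hstep i (by omega)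
        have t1 := hD.2 _ _ _ hst1 hA1 hA2.symm
        rw [fs_one]
        rw [hD.1 (c i (p i)) (z i)] at t1
        rw [hD.1 (c i (p i)) (z (i + 1))]
        have r2 := R2 (D (z i) (c i (p i)))
        have r3 := R2 (D (z (i + 1)) (c i (p i)))
        linear_combination r2 + r3 - t1
  have hif1 : ∀ (P : Prop) [Decidable P], (0 : ℤ) ≤ (if P then 1 else 0) ∧
      (if P then (1 : ℤ) else 0) ≤ 1 := fun P _ => by split_ifs <;> omega
  have hmain := h1 F T L z (c i) a b (p i) hP.toIP hpi ?_ ?_ ?_ ?_ hleft hright ?_ ?_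
  · have : (p i : ℤ) - 1 - (if p (i - 1) = 1 then 1 else 0) - (if p (i + 1) = 1 then 1 else 0) =
        (p i : ℤ) + 1 - ((b : ℤ) - a) := by
      rw [ha, hb]; ring
    rw [this]
    exact hmain
  · have e1 := hif1 (p (i - 1) = 1)
    have e2 := hif1 (p (i + 1) = 1)
    omega
  · have e2 := hif1 (p (i + 1) = 1)
    omega
  · intro j k hj1 hj2 hk1 hk2
    exact hS.ci i j k (by omega) (by omega) hj1 hj2 hk1 hk2
  · intro j k hj1 hj2 hk1 hk2
    exact hS.cc i j k (by omega) (by omega) hj1 hj2 hk1 hk2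
  · intro D hD
    have e1 := hif1 (p (i - 1) = 1)
    have e2 := hif1 (p (i + 1) = 1)
    rw [s5 D hD i (by omega) (by omega) 1 (p i) le_rfl hpi le_rfl,
      fs_split D z (show a ≤ i by omega) (show i ≤ b by omega), ← hlsum D hD, ← hrsum D hD]
    ring
  · intro j hj1 hj2
    exact Or.inr ⟨i, by omega, by omega, hS.adj i j (by omega) (by omega) hj1 hj2⟩

end Pool.Agent.H49.OLP
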