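import Pool.Agent.H74.OLP.Targets

set_option autoImplicit false
open scoped Classical
open Finset Pool.Agent.H74.OLP

namespace Pool.Agent.H49.OLP

theorem pf_ZZ (h1 : T_SPL) (h2 : T_SDF) : T_ZZ := by
  intro F T L z p c q r hP hS hS' hcross i hi8 hiL hpi hqi
  obtain ⟨k, rfl⟩ : ∃ k, i = k + 4 := ⟨i - 4, by omega⟩
  have hq1 : q (k + 1) = 1 := by
    have e : k + 4 - 3 = k + 1 := by omega
    rwa [e] at hqi
  have e2 : k + 4 - 2 = k + 2 := by omega
  rw [e2]
  obtain ⟨-, -, s3, -, -⟩ := h2 F T L z p c hP hS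
  obtain ⟨r1, r2, r3, -, r5⟩ := h2 F T L z q r hP hS'
  have hQ1 : 1 ≤ q (k + 2) := hS'.pos (k + 2) (by omega) (by omega)
  have hstep : ∀ l, l + 1 ≤ L → T.Adj (z l) (z (l + 1)) := fun l hl =>
    (hP.adj l (l + 1) (by omega) (by omega)).2 (Or.inl rfl)
  -- the point e
  have he3 : T.Adj (z (k + 3)) (c (k + 4) 1) := by
    have := (hS.cx (k + 4) 1 (by omega) (by omega) le_rfl (by omega)).2 rfl
    simpa using this
  have he4 : T.Adj (z (k + 4)) (c (k + 4) 1) := hS.adj (k + 4) 1 (by omega) (by omega) le_rfl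
    (by omega)
  have he5 : T.Adj (z (k + 5)) (c (k + 4) 1) :=
    (hS.cy (k + 4) 1 (by omega) (by omega) le_rfl (by omega)).2 hpi.symm
  have hez : ∀ l, l ≤ L → c (k + 4) 1 ≠ z l := fun l hl =>
    s3 (k + 4) 1 l (by omega) (by omega) le_rfl (by omega) hl
  have helk : c (k + 3) (p (k + 3)) = c (k + 4) 1 := hS.lk (k + 3) (by omega) (by omega)
  have hp3 : 1 ≤ p (k + 3) := hS.pos (k + 3) (by omega) (by omega)
  have hne2 : ¬ T.Adj (c (k + 4) 1) (z (k + 2)) := by
    intro h
    have := hP.two (c (k + 4) 1) (k + 5) (k + 2) (by omega) (by omega) he5.symm h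
    omega
  -- the r points
  have hradj : ∀ j, 1 ≤ j → j ≤ q (k + 2) → T.Adj (z (k + 2)) (r (k + 2) j) := fun j hj1 hj2 =>
    hS'.adj (k + 2) j (by omega) (by omega) hj1 hj2
  have hre : ∀ j, 1 ≤ j → j ≤ q (k + 2) → r (k + 2) j ≠ c (k + 4) 1 ∧
      ¬ T.Adj (r (k + 2) j) (c (k + 4) 1) := by
    intro j hj1 hj2
    refine ⟨fun h => ?_, fun h => ?_⟩
    · apply hne2
      rw [← h]
      exact (hradj j hj1 hj2).symm
    · rcases hP.q4 (c (k + 4) 1) (z (k + 3)) (z (k + 2)) (r (k + 2) j) he3.symm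
        (hstep (k + 2) (by omega)).symm (hradj j hj1 hj2) h
        (hez (k + 2) (by omega))
        (r3 (k + 2) j (k + 3) (by omega) (by omega) hj1 hj2 (by omega)).symm with h3 | h3
      · exact hne2 h3
      · have hj : j = q (k + 2) := (hS'.cy (k + 2) j (by omega) (by omega) hj1 hj2).1 h3
        subst hj
        rw [hS'.lk (k + 2) (by omega) (by omega), ← helk] at h
        exact (hcross (k + 3) (p (k + 3)) 1 (by omega) (by omega) hp3 le_rfl le_rfl
          (hS'.pos (k + 3) (by omega) (by omega))).1 h.symm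
  -- the new part
  set u : ℕ → F := fun j => if j ≤ q (k + 2) then r (k + 2) j else
    if j = q (k + 2) + 1 then z (k + 3) else c (k + 4) 1 with hu
  have uA : ∀ j, j ≤ q (k + 2) → u j = r (k + 2) j := fun j hj => by
    simp only [hu]; rw [if_pos hj]
  have uB : u (q (k + 2) + 1) = z (k + 3) := by
    change (if q (k + 2) + 1 ≤ q (k + 2) then r (k + 2) (q (k + 2) + 1) else
      if q (k + 2) + 1 = q (k + 2) + 1 then z (k + 3) else c (k + 4) 1) = z (k + 3)
    rw [if_neg (by omega), if_pos rfl]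
  have uC : u (q (k + 2) + 2) = c (k + 4) 1 := by
    simp only [hu]; rw [if_neg (by omega), if_neg (by omega)]
  have hcase : ∀ j, j ≤ q (k + 2) + 2 → j ≤ q (k + 2) ∨ j = q (k + 2) + 1 ∨ j = q (k + 2) + 2 :=
    fun j hj => by omega
  have hpair : ∀ i j, 1 ≤ i → i < j → j ≤ q (k + 2) + 2 →
      u i ≠ u j ∧ (T.Adj (u i) (u j) ↔ j = i + 1) := by
    intro i j hi1 hij hj
    rcases hcase j hj with hj' | rfl | rfl
    · rw [uA i (by omega), uA j hj',
        hS'.cc (k + 2) i j (by omega) (by omega) hi1 (by omega) (by omega) hj']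
      refine ⟨fun h => ?_, by omega⟩
      have := hS'.ci (k + 2) i j (by omega) (by omega) hi1 (by omega) (by omega) hj' h
      omega
    · rw [uA i (by omega), uB, SimpleGraph.adj_comm]
      refine ⟨r3 (k + 2) i (k + 3) (by omega) (by omega) hi1 (by omega) (by omega), ?_⟩
      have := hS'.cy (k + 2) i (by omega) (by omega) hi1 (by omega)
      rw [show k + 2 + 1 = k + 3 by ring] at this
      rw [this]
      omega
    · rcases (by omega : i ≤ q (k + 2) ∨ i = q (k + 2) + 1) with hi' | rfl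
      · rw [uA i hi', uC]
        refine ⟨(hre i hi1 hi').1, fun h => absurd h (hre i hi1 hi').2, fun h => by omega⟩
      · rw [uB, uC]
        exact ⟨(hez (k + 3) (by omega)).symm, fun _ => rfl, fun _ => he3⟩
  have hmain := h1 F T L z u k (k + 5) (q (k + 2) + 2) hP.toIP (by omega) (by omega) (by omega)
    ?_ ?_ ?_ ?_ ?_ ?_
  · have : (q (k + 2) : ℤ) - 2 = ((q (k + 2) + 2 : ℕ) : ℤ) + 1 - (((k + 5 : ℕ) : ℤ) - (k : ℤ)) := by
      push_cast; ring
    rw [this]
    exact hmain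
  · intro i j hi1 hi2 hj1 hj2 he
    rcases lt_trichotomy i j with h | h | h
    · exact absurd he (hpair i j hi1 h hj2).1
    · exact h
    · exact absurd he.symm (hpair j i hj1 h hi2).1
  · intro i j hi1 hi2 hj1 hj2
    rcases lt_trichotomy i j with h | h | h
    · rw [(hpair i j hi1 h hj2).2]
      omega
    · subst h
      simp
    · rw [SimpleGraph.adj_comm, (hpair j i hj1 h hi2).2]
      omega
  · intro j l hj1 hj2 hl
    rcases hcase j hj2 with hj' | rfl | rfl
    · rw [uA j hj']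
      refine ⟨?_, r3 (k + 2) j l (by omega) (by omega) hj1 hj' (by omega)⟩
      rw [r1 (k + 2) j l (by omega) (by omega) hj1 hj' (by omega)]
      have e3 : k + 2 - 1 = k + 1 := by omega
      rw [e3]
      constructor
      · rintro ⟨h3, h4 | ⟨h4, -⟩⟩
        · omega
        · exact ⟨by omega, h3⟩
      · rintro ⟨h3, h4⟩
        exact ⟨h4, Or.inr ⟨by omega, hq1⟩⟩
    · rw [uB, hP.adj l (k + 3) (by omega) (by omega)]
      refine ⟨by omega, fun h => ?_⟩
      have := hP.inj (k + 3) l (by omega) (by omega) h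
      omega
    · rw [uC]
      refine ⟨⟨fun h => ?_, fun h => by omega⟩, hez l (by omega)⟩
      have := hP.two (c (k + 4) 1) (k + 5) l (by omega) (by omega) he5.symm h.symm
      omega
  · intro j l hj1 hj2 hl1 hl2
    rcases hcase j hj2 with hj' | rfl | rfl
    · rw [uA j hj']
      refine ⟨?_, r3 (k + 2) j l (by omega) (by omega) hj1 hj' (by omega)⟩
      rw [r2 (k + 2) j l (by omega) (by omega) hj1 hj' (by omega) (by omega)]
      constructor
      · rintro ⟨h3, h4 | ⟨h4, -⟩⟩ <;> omega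
      · rintro ⟨h3, h4⟩
        omega
    · rw [uB, hP.adj l (k + 3) (by omega) (by omega)]
      refine ⟨by omega, fun h => ?_⟩
      have := hP.inj (k + 3) l (by omega) (by omega) h
      omega
    · rw [uC]
      refine ⟨⟨fun h => ?_, fun h => ?_⟩, hez l (by omega)⟩
      · have := hP.two (c (k + 4) 1) l (k + 3) (by omega) (by omega) h.symm he3.symm
        omega
      · rw [h.1]; exact he5
  · intro D hD
    have hr1 : T.Adj (z k) (r (k + 2) 1) := (r1 (k + 2) 1 k (by omega) (by omega) le_rfl hQ1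
      (by omega)).2 ⟨rfl, Or.inr ⟨rfl, by simpa using hq1⟩⟩
    have hr2 : T.Adj (z (k + 1)) (r (k + 2) 1) := (r1 (k + 2) 1 (k + 1) (by omega) (by omega)
      le_rfl hQ1 (by omega)).2 ⟨rfl, Or.inl rfl⟩
    have hr3 := hradj 1 le_rfl hQ1
    have hr4 := hradj (q (k + 2)) hQ1 le_rfl
    have hr5 : T.Adj (z (k + 3)) (r (k + 2) (q (k + 2))) :=
      (hS'.cy (k + 2) (q (k + 2)) (by omega) (by omega) hQ1 le_rfl).2 rfl
    have t1 := hD.2 _ _ _ (hstep k (by omega)) hr2 hr1.symm
    have t2 := hD.2 _ _ _ (hstep (k + 1) (by omega)) hr3 hr2.symm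
    have t3 := hD.2 _ _ _ (hstep (k + 2) (by omega)) hr5 hr4.symm
    have t4 := hD.2 _ _ _ (hstep (k + 3) (by omega)) he4 he3.symm
    have t5 := hD.2 _ _ _ (hstep (k + 4) (by omega)) he5 he4.symm
    have fan := r5 D hD (k + 2) (by omega) (by omega) 1 (q (k + 2)) le_rfl hQ1 le_rfl
    have f1 : fs D u 1 (q (k + 2) + 2) = fs D (r (k + 2)) 1 (q (k + 2)) +
        D (r (k + 2) (q (k + 2))) (z (k + 3)) + D (z (k + 3)) (c (k + 4) 1) := by
      rw [fs_succ D u (by omega : 1 ≤ q (k + 2) + 1), fs_succ D u hQ1, uA _ le_rfl, uB, uC,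
        fs_congr D (z := u) (y := r (k + 2)) fun j _ hj => uA j hj]
    have f2 : fs D z k (k + 5) = D (z k) (z (k + 1)) + D (z (k + 1)) (z (k + 1 + 1)) +
        D (z (k + 2)) (z (k + 2 + 1)) + D (z (k + 3)) (z (k + 3 + 1)) +
        D (z (k + 4)) (z (k + 4 + 1)) := by
      rw [show k + 5 = k + 4 + 1 by ring, fs_succ D z (by omega : k ≤ k + 4),
        show k + 4 = k + 3 + 1 by ring, fs_succ D z (by omega : k ≤ k + 3),
        show k + 3 = k + 2 + 1 by ring, fs_succ D z (by omega : k ≤ k + 2),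
        show k + 2 = k + 1 + 1 by ring, fs_succ D z (by omega : k ≤ k + 1), fs_one]
    rw [f1, fan, f2, uA 1 hQ1, uC]
    rw [hD.1 (r (k + 2) 1) (z k)] at t1
    rw [hD.1 (r (k + 2) 1) (z (k + 1))] at t2
    rw [hD.1 (r (k + 2) (q (k + 2))) (z (k + 2))] at t3
    rw [hD.1 (c (k + 4) 1) (z (k + 3))] at t4
    rw [hD.1 (c (k + 4) 1) (z (k + 4))] at t5
    rw [hD.1 (r (k + 2) (q (k + 2))) (z (k + 3)), hD.1 (c (k + 4) 1) (z (k + 5))]
    have g1 := R2 (D (z k) (r (k + 2) 1))
    have g2 := R2 (D (z (k + 1)) (r (k + 2) 1))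
    have g3 := R2 (D (z (k + 2)) (r (k + 2) 1))
    have g4 := R2 (D (z (k + 2)) (r (k + 2) (q (k + 2))))
    have g5 := R2 (D (z (k + 3)) (r (k + 2) (q (k + 2))))
    have g6 := R2 (D (z (k + 3)) (c (k + 4) 1))
    have g7 := R2 (D (z (k + 4)) (c (k + 4) 1))
    have g8 := R2 (D (z (k + 5)) (c (k + 4) 1))
    linear_combination g1 + g2 + g3 + g4 + g5 + g6 + g7 + g8 - t1 - t2 - t3 - t4 - t5
  · intro j hj1 hj2
    rcases hcase j hj2 with hj' | rfl | rfl
    · rw [uA j hj']
      exact Or.inr ⟨k + 2, by omega, by omega, hradj j hj1 hj'⟩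
    · rw [uB]
      exact Or.inl ⟨k + 3, by omega, rfl⟩
    · rw [uC]
      exact Or.inr ⟨k + 4, by omega, by omega, he4⟩

end Pool.Agent.H49.OLP
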